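import Pool.Agent.MWKP.Stmts

/-!
# Row IPT of block MWKP: the effect of an insertion
-/

set_option autoImplicit false

namespace Pool.Agent.MWKP.H19

open Pool.Agent.Helper14_MV Pool.Agent.Helper2_MV Pool.Agent.MWK Pool.Agent.MWKP

theorem count_rep (N x z : ℕ) : (List.replicate N x).count z = if z = x then N else 0 := by
  rw [List.count_replicate]
  by_cases h : z = x
  · subst h
    simp
  · rw [if_neg h, if_neg]
    intro h'
    exact h (beq_iff_eq.mp h').symm

theorem ipt : IptStmt := by
  intro w y x N hy
  obtain ⟨Q, hQ⟩ := mem_split hy
  have hyP : y ∉ pre w y := not_mem_pre w y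
  have hd : w.drop (pre w y).length = y :: Q := by
    conv_lhs => rw [hQ]
    rw [pre_split hyP, List.drop_left]
  have hi : MWKP.ipt w y x N = pre w y ++ List.replicate N x ++ y :: Q := by
    unfold MWKP.ipt
    rw [hd]
  constructor
  · intro z
    rw [hi, List.count_append, List.count_append, count_rep]
    conv_rhs => rw [hQ]
    rw [List.count_append]
    omega
  · intro t ht z
    by_cases htP : t ∈ pre w y
    · have e1 : pre (MWKP.ipt w y x N) t = pre (pre w y) t := by
        rw [hi, List.append_assoc, pre_append_mem htP]
      have e2 : pre w t = pre (pre w y) t := by
        conv_lhs => rw [hQ]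
        rw [pre_append_mem htP]
      rw [e1, e2, if_neg, Nat.add_zero]
      rintro ⟨-, h | h⟩
      · exact hyP (h ▸ htP)
      · exact hyP ((pre_prefix (pre w y) t).subset h)
    · have htx : t ≠ x := by
        rcases ht with h | h
        · exact h
        · intro h'
          exact htP (h' ▸ h)
      have htR : t ∉ List.replicate N x := fun h => htx (List.eq_of_mem_replicate h)
      have htPR : t ∉ pre w y ++ List.replicate N x := by
        intro h
        rcases List.mem_append.mp h with h | h
        · exact htP h
        · exact htR h
      by_cases hty : t = y
      · subst hty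
        have e1 : pre (MWKP.ipt w t x N) t = pre w t ++ List.replicate N x := by
          rw [hi, pre_split htPR]
        rw [e1, List.count_append, count_rep]
        by_cases hz : z = x
        · rw [if_pos hz, if_pos ⟨hz, Or.inl rfl⟩]
        · rw [if_neg hz, if_neg (fun h => hz h.1)]
      · have e0 : pre (y :: Q) t = y :: pre Q t := by
          unfold pre
          rw [List.takeWhile_cons_of_pos]
          exact decide_eq_true (fun h => hty h.symm)
        have e1 : pre (MWKP.ipt w y x N) t =
            pre w y ++ List.replicate N x ++ y :: pre Q t := by
          rw [hi, pre_append htPR, e0]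
        have e2 : pre w t = pre w y ++ y :: pre Q t := by
          conv_lhs => rw [hQ]
          rw [pre_append htP, e0]
        have hmem : y ∈ pre w t := by
          rw [e2]
          exact List.mem_append_right _ List.mem_cons_self
        have e3 : (pre w t).count z = (pre w y).count z + (y :: pre Q t).count z := by
          rw [e2, List.count_append]
        rw [e1, List.count_append, List.count_append, count_rep, e3]
        by_cases hz : z = x
        · rw [if_pos hz, if_pos ⟨hz, Or.inr hmem⟩]
          omega
        · rw [if_neg hz, if_neg (fun h => hz h.1)]
          omega

end Pool.Agent.MWKP.H19
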