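import Pool.Agent.MWKP.Stmts

/-!
# Row MSM of block MWKP: removing the differences of shape
-/

set_option autoImplicit false

namespace Pool.Agent.MWKP.H19

open Pool.Agent.Helper14_MV Pool.Agent.Helper2_MV Pool.Agent.MWK Pool.Agent.MWKP

theorem agl_fst {m j : ℕ} {u v : List ℕ} (hj : 1 ≤ j) (h : AgL m j u v) :
    ∀ x i, i ≤ 1 → (i + 1 ≤ u.count x ↔ i + 1 ≤ v.count x) := by
  obtain ⟨j', rfl⟩ := Nat.exists_eq_add_of_le' hj
  cases j' with
  | zero => exact h.1
  | succ e => exact h.1

theorem mod_add_if {n N a : ℕ} (h : n ∣ N) (q : Prop) [Decidable q] :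
    a + (if q then N else 0) ≡ a [MOD n] := by
  split_ifs
  · obtain ⟨t, rfl⟩ := h
    unfold Nat.ModEq
    rw [Nat.add_mul_mod_self_left]
  · rfl

theorem msm (h1 : IptStmt) (h2 : St1Stmt) (h3 : St2Stmt) : MsmStmt := by
  classical
  intro n θ hθ m j hj1 hj2 hlv
  have key : ∀ (S : Finset (ℕ × ℕ)) (N : ℕ) (u v : List ℕ), AgL m j u v →
      (∀ x y, Mm m u v x y → (x, y) ∈ S) → (S.filter (fun p => Mm m u v p.1 p.2)).card = N →
      ∃ u' v', RR θ u u' ∧ RR θ v v' ∧ Ag (FF (m + 1) v') u' v' ∧
        (∀ x, u'.count x ≡ u.count x [MOD n] ∧ v'.count x ≡ v.count x [MOD n]) ∧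
        (∀ y x, Dp (m + 1) v y → (pre u' y).count x ≡ (pre u y).count x [MOD n] ∧
          (pre v' y).count x ≡ (pre v y).count x [MOD n]) ∧
        (∀ k ≤ m + 1, ∀ t, Dp k v' t ↔ Dp k v t) := by
    intro S N
    induction N using Nat.strong_induction_on with
    | _ N ih =>
      intro u v hag hS hN
      by_cases hex : ∃ x y, Mm m u v x y
      · obtain ⟨x, y, hM⟩ := hex
        obtain ⟨hcu, hcv, hor, M, hnM, hMu, hMv, hRu, hRv⟩ :=
          h2 n θ hθ m j hj1 hj2 hlv u v x y hag hM
        obtain ⟨hag', hDp, hMm, hnot⟩ :=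
          h3 m j hj1 hj2 u v x y M hag hM hcu hcv hor hMu hMv
        have hyv : y ∈ v := Dp.mem hM.1
        have hyu : y ∈ u := by
          have h0 := agl_fst hj1 hag y 0 (by omega)
          rw [← List.count_pos_iff] at hyv ⊢
          omega
        obtain ⟨cu1, cu2⟩ := h1 u y x M hyu
        obtain ⟨cv1, cv2⟩ := h1 v y x M hyv
        have hlt : (S.filter (fun p => Mm m (ipt u y x M) (ipt v y x M) p.1 p.2)).card < N := by
          rw [← hN]
          apply Finset.card_lt_card
          rw [Finset.ssubset_iff_of_subset]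
          · refine ⟨(x, y), Finset.mem_filter.mpr ⟨hS x y hM, hM⟩, ?_⟩
            intro h
            exact hnot (Finset.mem_filter.mp h).2
          · intro p hp
            rw [Finset.mem_filter] at hp ⊢
            exact ⟨hp.1, hMm _ _ hp.2⟩
        obtain ⟨u', v', r1, r2, r3, r4, r5, r6⟩ := ih _ hlt (ipt u y x M) (ipt v y x M) hag'
          (fun x' y' h => hS x' y' (hMm x' y' h)) rfl
        refine ⟨u', v', θ.trans hRu r1, θ.trans hRv r2, r3, ?_, ?_, ?_⟩
        · intro z
          obtain ⟨a1, a2⟩ := r4 z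
          rw [cu1 z] at a1
          rw [cv1 z] at a2
          exact ⟨a1.trans (mod_add_if hnM _), a2.trans (mod_add_if hnM _)⟩
        · intro t z ht
          obtain ⟨a1, a2⟩ := r5 t z ((hDp (m + 1) le_rfl t).mpr ht)
          have hcond : ∀ q : Prop, (x ∈ pre u y ∧ x ∈ pre v y → q) → t ≠ x ∨ q := by
            intro q hq
            by_cases htx : t = x
            · right
              rcases hor with h | h
              · exact hq h
              · exact absurd (htx ▸ ht) h
            · exact Or.inl htx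
          rw [cu2 t (hcond _ (fun h => h.1)) z] at a1
          rw [cv2 t (hcond _ (fun h => h.2)) z] at a2
          exact ⟨a1.trans (mod_add_if hnM _), a2.trans (mod_add_if hnM _)⟩
        · intro k hk t
          rw [r6 k hk t, hDp k hk t]
      · refine ⟨u, v, RR.refl u, RR.refl v, ⟨agl_fst hj1 hag, ?_⟩, fun x => ⟨rfl, rfl⟩,
          fun y x _ => ⟨rfl, rfl⟩, fun k _ t => Iff.rfl⟩
        intro y x i hi hF
        by_contra hne
        exact hex ⟨x, y, hF, fun h => hne (h i hi)⟩
  intro u v hag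
  refine key ((u.toFinset ∪ v.toFinset) ×ˢ v.toFinset) _ u v hag ?_ rfl
  intro x y hM
  rw [Finset.mem_product, Finset.mem_union, List.mem_toFinset, List.mem_toFinset,
    List.mem_toFinset]
  refine ⟨?_, Dp.mem hM.1⟩
  by_contra hno
  rw [not_or] at hno
  apply hM.2
  intro i _
  have e1 : (pre u y).count x = 0 :=
    List.count_eq_zero.mpr (fun h => hno.1 (mem_of_mem_pre h))
  have e2 : (pre v y).count x = 0 :=
    List.count_eq_zero.mpr (fun h => hno.2 (mem_of_mem_pre h))
  rw [e1, e2]

end Pool.Agent.MWKP.H19
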