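import Pool.Agent.MWKP.Stmts

/-!
# Row SPF of block MWKP: a filtered word is split along its chain
-/

set_option autoImplicit false

namespace Pool.Agent.MWKP.H19

open Pool.Agent.Helper14_MV Pool.Agent.Helper2_MV Pool.Agent.MWK Pool.Agent.MWKP

/-- the part of the word behind the letter `c` -/
theorem tl_of (d : ℕ) (F : ℕ → Bool) (w : List ℕ) : ∀ (cs : List ℕ) (k : ℕ) (L : List ℕ) (c : ℕ)
    (A T : List ℕ), w = A ++ c :: T → c ∉ A → Chc w [c] cs → (∀ z ∈ cs, z ∉ A ++ [c]) →
      (∀ c'', 1 ≤ k → cs[k - 1]? = some c'' → (pre w c'').count d = (A ++ [c]).count d) →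
      (1 ≤ k → cs[k - 1]? = none → w.count d = (A ++ [c]).count d) →
      (∀ z ∈ w, F z = true → z ≠ c → z ∉ cs → z ∈ L) → (∀ z ∈ cs, z ∉ c :: L) →
      (∀ z ∈ cs, F z = true) → Tl d k L c cs (T.filter F) := by
  intro cs
  induction cs with
  | nil =>
    intro k L c A T hw hcA hC _ _ hk2 hL _ _ z hz
    rw [List.mem_filter] at hz
    have h1 : w.count c = 1 := hC c (List.mem_singleton.mpr rfl)
    have h2 : w.count c = A.count c + (T.count c + 1) := by
      rw [hw, List.count_append, List.count_cons_self]
    have hcT : c ∉ T := List.count_eq_zero.mp (by omega)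
    have hzw : z ∈ w := by
      rw [hw]
      exact List.mem_append_right _ (List.mem_cons_of_mem _ hz.1)
    refine ⟨hL z hzw hz.2 (fun h => hcT (h ▸ hz.1)) List.not_mem_nil, ?_⟩
    intro hzd
    by_contra hk
    have h3 := hk2 (Nat.one_le_iff_ne_zero.mpr hk) (by simp)
    have h4 : w.count d = (A ++ [c]).count d + T.count d := by
      have : w = (A ++ [c]) ++ T := by
        rw [hw]
        simp
      rw [this, List.count_append]
    have h5 : 0 < T.count d := List.count_pos_iff.mpr (hzd ▸ hz.1)
    omega
  | cons c' cs ih =>
    intro k L c A T hw hcA hC hcs hk1 hk2 hL hN hF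
    obtain ⟨h1, h2, h3⟩ := hC
    have h1' : (pre w c').count c = 1 := h1 c (List.mem_singleton.mpr rfl)
    have hc'A : c' ∉ A ++ [c] := hcs c' List.mem_cons_self
    have hwT : w = (A ++ [c]) ++ T := by
      rw [hw]
      simp
    have hc'T : c' ∈ T := by
      rw [hwT] at h2
      rcases List.mem_append.mp h2 with h | h
      · exact absurd h hc'A
      · exact h
    obtain ⟨T', hT'⟩ := mem_split hc'T
    have hc'B : c' ∉ pre T c' := not_mem_pre T c'
    have hpre : pre w c' = (A ++ [c]) ++ pre T c' := by
      rw [hwT, pre_append hc'A]
    have hcB : c ∉ pre T c' := by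
      intro h
      have h4 : 0 < (pre T c').count c := List.count_pos_iff.mpr h
      rw [hpre, List.count_append, List.count_append, List.count_singleton_self] at h1'
      omega
    have hcs' : ∀ z ∈ cs, z ∉ pre w c' := by
      intro z hz
      exact pre_asymm (Chc.mem_pre h3 c' (List.mem_singleton.mpr rfl) z hz)
    have hne' : ∀ z ∈ cs, z ≠ c' := by
      intro z hz h
      subst h
      exact not_mem_pre w z (Chc.mem_pre h3 z (List.mem_singleton.mpr rfl) z hz)
    have hw' : w = (pre w c') ++ c' :: T' := by
      rw [hpre]
      conv_lhs => rw [hwT, hT']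
      simp
    have hle : ∀ c'' ∈ cs, (pre w c' ++ [c']).count d ≤ (pre w c'').count d := by
      intro c'' hc''
      obtain ⟨C, hC⟩ := pre_mono (Chc.mem_pre h3 c' (List.mem_singleton.mpr rfl) c'' hc'')
      have e1 : pre w c'' = (pre w c' ++ [c']) ++ C := by
        rw [hC]
        simp
      rw [e1, List.count_append (l₂ := C)]
      omega
    have hlew : (pre w c' ++ [c']).count d ≤ w.count d := by
      have e1 : w = (pre w c' ++ [c']) ++ T' := by
        conv_lhs => rw [hw']
        simp
      have e2 := congrArg (List.count d) e1
      rw [List.count_append (l₂ := T')] at e2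
      omega
    have hge : (A ++ [c]).count d + (pre T c').count d ≤ (pre w c' ++ [c']).count d := by
      rw [hpre, List.count_append (l₂ := [c']), List.count_append (l₂ := pre T c')]
      omega
    -- the letter `d` is not in the part before `c'`
    have hd0 : 1 ≤ k → (pre T c').count d = 0 := by
      intro hk
      obtain ⟨k', rfl⟩ := Nat.exists_eq_add_of_le' hk
      cases k' with
      | zero =>
        have h5 := hk1 c' (by omega) (by simp)
        rw [hpre, List.count_append (l₂ := pre T c')] at h5
        omega
      | succ k' =>
        rcases hcase : cs[k']? with _ | c''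
        · have h5 := hk2 (by omega) (by simpa using hcase)
          omega
        · have h5 := hk1 c'' (by omega) (by simpa using hcase)
          have h6 := hle c'' (List.mem_of_getElem? hcase)
          omega
    have hFT : T.filter F = (pre T c').filter F ++ c' :: T'.filter F := by
      conv_lhs => rw [hT']
      rw [List.filter_append, List.filter_cons_of_pos (hF c' List.mem_cons_self)]
    refine ⟨hN c' List.mem_cons_self, (pre T c').filter F, T'.filter F, hFT, ?_, ?_⟩
    · intro z hz
      rw [List.mem_filter] at hz
      have hzw : z ∈ w := by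
        refine mem_of_mem_pre (y := c') ?_
        rw [hpre]
        exact List.mem_append_right _ hz.1
      refine ⟨hL z hzw hz.2 (fun h => hcB (h ▸ hz.1)) ?_, ?_⟩
      · intro h
        rcases List.mem_cons.mp h with h | h
        · exact hc'B (h ▸ hz.1)
        · apply hcs' z h
          rw [hpre]
          exact List.mem_append_right _ hz.1
      · intro hzd
        by_contra hk
        have h5 := hd0 (Nat.one_le_iff_ne_zero.mpr hk)
        exact List.count_eq_zero.mp h5 (hzd ▸ hz.1)
    · refine ih (k - 1) (c :: L) c' (pre w c') T' hw' (not_mem_pre w c') h3 ?_ ?_ ?_ ?_ ?_ ?_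
      · intro z hz hm
        rcases List.mem_append.mp hm with h | h
        · exact hcs' z hz h
        · exact hne' z hz (List.mem_singleton.mp h)
      · intro c'' hk hc''
        obtain ⟨k', rfl⟩ := Nat.exists_eq_add_of_le' (show 2 ≤ k by omega)
        have h5 := hk1 c'' (by omega) (by simpa using hc'')
        have h6 := hle c'' (List.mem_of_getElem? hc'')
        omega
      · intro hk hc''
        obtain ⟨k', rfl⟩ := Nat.exists_eq_add_of_le' (show 2 ≤ k by omega)
        have h5 := hk2 (by omega) (by simpa using hc'')
        omega
      · intro z hz hFz hzc' hzcs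
        by_cases hzc : z = c
        · subst hzc
          exact List.mem_cons_self
        · refine List.mem_cons_of_mem _ (hL z hz hFz hzc ?_)
          intro h
          rcases List.mem_cons.mp h with h | h
          · exact hzc' h
          · exact hzcs h
      · intro z hz hm
        rcases List.mem_cons.mp hm with h | h
        · exact hne' z hz h
        · exact hN z (List.mem_cons_of_mem _ hz) h
      · intro z hz
        exact hF z (List.mem_cons_of_mem _ hz)

theorem spf : SpfStmt := by
  intro d k L cs p w hLcs hC hk1 hk2
  cases cs with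
  | nil =>
    refine ⟨?_, rfl⟩
    intro z hz
    rw [List.mem_filter] at hz
    have h1 := of_decide_eq_true hz.2
    rcases h1 with h1 | h1
    · exact h1
    · exact absurd h1 List.not_mem_nil
  | cons c cs =>
    obtain ⟨-, h2, h3⟩ := hC
    obtain ⟨T, hT⟩ := mem_split h2
    have hcp : c ∉ pre w c := not_mem_pre w c
    have hcs' : ∀ z ∈ cs, z ∉ pre w c := by
      intro z hz
      exact pre_asymm (Chc.mem_pre h3 c (List.mem_singleton.mpr rfl) z hz)
    have hne' : ∀ z ∈ cs, z ≠ c := by
      intro z hz h
      subst h
      exact not_mem_pre w z (Chc.mem_pre h3 z (List.mem_singleton.mpr rfl) z hz)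
    have hFc : ∀ z ∈ c :: cs, (fun z => decide (z ∈ L ∨ z ∈ c :: cs)) z = true := by
      intro z hz
      exact decide_eq_true (Or.inr hz)
    have hsp : w.filter (fun z => decide (z ∈ L ∨ z ∈ c :: cs)) =
        (pre w c).filter (fun z => decide (z ∈ L ∨ z ∈ c :: cs)) ++
          c :: T.filter (fun z => decide (z ∈ L ∨ z ∈ c :: cs)) := by
      have hcT : (c :: T).filter (fun z => decide (z ∈ L ∨ z ∈ c :: cs)) =
          c :: T.filter (fun z => decide (z ∈ L ∨ z ∈ c :: cs)) :=
        List.filter_cons_of_pos (hFc c List.mem_cons_self)
      conv_lhs => rw [hT]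
      rw [List.filter_append, hcT]
    have hcf : c ∉ (pre w c).filter (fun z => decide (z ∈ L ∨ z ∈ c :: cs)) :=
      fun h => hcp (List.mem_of_mem_filter h)
    have hle : ∀ c'' ∈ cs, (pre w c ++ [c]).count d ≤ (pre w c'').count d := by
      intro c'' hc''
      obtain ⟨C, hC⟩ := pre_mono (Chc.mem_pre h3 c (List.mem_singleton.mpr rfl) c'' hc'')
      have e1 : pre w c'' = (pre w c ++ [c]) ++ C := by
        rw [hC]
        simp
      rw [e1, List.count_append (l₂ := C)]
      omega
    have hlew : (pre w c ++ [c]).count d ≤ w.count d := by
      have e1 : w = (pre w c ++ [c]) ++ T := by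
        conv_lhs => rw [hT]
        simp
      have e2 := congrArg (List.count d) e1
      rw [List.count_append (l₂ := T)] at e2
      omega
    have hge : (pre w c).count d ≤ (pre w c ++ [c]).count d := by
      rw [List.count_append]
      omega
    refine ⟨⟨fun h => hLcs c h List.mem_cons_self, _, _, hsp, ?_, ?_⟩, ?_⟩
    · intro z hz
      rw [List.mem_filter] at hz
      rcases of_decide_eq_true hz.2 with h | h
      · exact h
      · rcases List.mem_cons.mp h with h | h
        · exact absurd (h ▸ hz.1) hcp
        · exact absurd hz.1 (hcs' z h)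
    · refine tl_of d _ w cs k L c (pre w c) T hT hcp h3 ?_ ?_ ?_ ?_ ?_ ?_
      · intro z hz hm
        rcases List.mem_append.mp hm with h | h
        · exact hcs' z hz h
        · exact hne' z hz (List.mem_singleton.mp h)
      · intro c'' hk hc''
        obtain ⟨k', rfl⟩ := Nat.exists_eq_add_of_le' hk
        have h5 := hk1 c'' c hk (by simpa using hc'') rfl
        have h6 := hle c'' (List.mem_of_getElem? hc'')
        omega
      · intro hk hc''
        obtain ⟨k', rfl⟩ := Nat.exists_eq_add_of_le' hk
        have h5 := hk2 c hk (by simpa using hc'') rfl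
        omega
      · intro z _ hF hzc hzcs
        rcases of_decide_eq_true hF with h | h
        · exact h
        · rcases List.mem_cons.mp h with h | h
          · exact absurd h hzc
          · exact absurd h hzcs
      · intro z hz hm
        rcases List.mem_cons.mp hm with h | h
        · exact hne' z hz h
        · exact hLcs z h (List.mem_cons_of_mem _ hz)
      · intro z hz
        exact hFc z (List.mem_cons_of_mem _ hz)
    · show pre (w.filter _) c = (pre w c).filter _
      rw [hsp, pre_split hcf]

end Pool.Agent.MWKP.H19
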